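import Mathlib

/-!
# One dimensional Brunn-Minkowski and Prekopa-Leindler for bounded functions

(copied from `Pool.Agent.H902R3.ZA.{LBM,PLA}` to keep the import graph small)
-/

set_option autoImplicit false

open MeasureTheory ProbabilityTheory Finset
open scoped RealInnerProductSpace ENNReal

namespace Pool.Agent.TH264.MP.Base

/-- one dimensional Brunn-Minkowski -/
def S_LBM : Prop := ∀ (s : ℝ), 0 < s → s < 1 → ∀ A B C : Set ℝ, MeasurableSet A →
  MeasurableSet B → MeasurableSet C → A.Nonempty → B.Nonempty →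
  (∀ x ∈ A, ∀ y ∈ B, s * x + (1 - s) * y ∈ C) →
  ENNReal.ofReal s * volume A + ENNReal.ofReal (1 - s) * volume B ≤ volume C



namespace LBMaux

theorem compact_case {K1 K2 C : Set ℝ} (h1 : IsCompact K1) (h2 : IsCompact K2) (n1 : K1.Nonempty)
    (n2 : K2.Nonempty) (h : ∀ x ∈ K1, ∀ y ∈ K2, x + y ∈ C) :
    volume K1 + volume K2 ≤ volume C := by
  have ha := h1.sSup_mem n1
  have hb := h2.sInf_mem n2
  set a := sSup K1 with had
  set b := sInf K2 with hbd
  have ua : ∀ x ∈ K1, x ≤ a := fun x hx => le_csSup h1.bddAbove hx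
  have lb : ∀ x ∈ K2, b ≤ x := fun x hx => csInf_le h2.bddBelow hx
  have e1 : volume ((fun x => x + (-b)) ⁻¹' K1) = volume K1 := measure_preimage_add_right _ _ _
  have e2 : volume ((fun x => (-a) + x) ⁻¹' K2) = volume K2 := measure_preimage_add _ _ _
  have m2 : MeasurableSet ((fun x => (-a) + x) ⁻¹' K2) :=
    (measurable_const_add (-a)) h2.measurableSet
  have e3 : volume (((fun x => (-a) + x) ⁻¹' K2) \ {a + b}) = volume K2 := by
    rw [measure_sdiff_null (by simp), e2]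
  rw [← e1, ← e3, ← measure_union _ (m2.diff (measurableSet_singleton _))]
  · apply measure_mono
    rintro x (hx | hx)
    · have := h _ hx _ hb
      have e : x + -b + b = x := by ring
      rwa [e] at this
    · have := h _ ha _ hx.1
      have e : a + (-a + x) = x := by ring
      rwa [e] at this
  · rw [Set.disjoint_left]
    intro x hx hx'
    have q1 := ua _ hx
    have q2 := lb _ hx'.1
    apply hx'.2
    rw [Set.mem_singleton_iff]
    linarith

theorem add_case {A B C : Set ℝ} (mA : MeasurableSet A) (mB : MeasurableSet B) (nA : A.Nonempty)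
    (nB : B.Nonempty) (h : ∀ x ∈ A, ∀ y ∈ B, x + y ∈ C) : volume A + volume B ≤ volume C := by
  by_contra hc
  rw [not_le] at hc
  have hA0 : volume A ≠ 0 := by
    intro h0
    rw [h0, zero_add] at hc
    obtain ⟨a, ha⟩ := nA
    have e2 : volume ((fun x => (-a) + x) ⁻¹' B) = volume B := measure_preimage_add _ _ _
    rw [← e2] at hc
    refine absurd hc (not_lt.2 (measure_mono ?_))
    intro x hx
    have := h _ ha _ hx
    have e : a + (-a + x) = x := by ring
    rwa [e] at this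
  have hB0 : volume B ≠ 0 := by
    intro h0
    rw [h0, add_zero] at hc
    obtain ⟨b, hb⟩ := nB
    have e2 : volume ((fun x => x + (-b)) ⁻¹' A) = volume A := measure_preimage_add_right _ _ _
    rw [← e2] at hc
    refine absurd hc (not_lt.2 (measure_mono ?_))
    intro x hx
    have := h _ hx _ hb
    have e : x + -b + b = x := by ring
    rwa [e] at this
  obtain ⟨y, hy, z, hz, hyz⟩ := ENNReal.exists_lt_add_of_lt_add hc hA0 hB0
  obtain ⟨K1, hK1, cK1, v1⟩ := mA.exists_lt_isCompact hy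
  obtain ⟨K2, hK2, cK2, v2⟩ := mB.exists_lt_isCompact hz
  have n1 : K1.Nonempty := nonempty_of_measure_ne_zero (ne_bot_of_gt v1)
  have n2 : K2.Nonempty := nonempty_of_measure_ne_zero (ne_bot_of_gt v2)
  have := compact_case cK1 cK2 n1 n2 (C := C) (fun x hx y hy => h x (hK1 hx) y (hK2 hy))
  exact absurd (hyz.trans_le ((add_le_add v1.le v2.le).trans this)) (lt_irrefl _)

end LBMaux

theorem LBM_ok : S_LBM := by
  intro s hs hs1 A B C mA mB _ nA nB h
  have hs' : 0 < 1 - s := by linarith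
  have e1 : volume ((fun x => s⁻¹ * x) ⁻¹' A) = ENNReal.ofReal s * volume A := by
    rw [Real.volume_preimage_mul_left (inv_ne_zero hs.ne'), inv_inv, abs_of_pos hs]
  have e2 : volume ((fun x => (1 - s)⁻¹ * x) ⁻¹' B) = ENNReal.ofReal (1 - s) * volume B := by
    rw [Real.volume_preimage_mul_left (inv_ne_zero hs'.ne'), inv_inv, abs_of_pos hs']
  rw [← e1, ← e2]
  apply LBMaux.add_case
  · exact (measurable_const_mul _) mA
  · exact (measurable_const_mul _) mB
  · obtain ⟨x, hx⟩ := nA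
    refine ⟨s * x, ?_⟩
    rw [Set.mem_preimage, inv_mul_cancel_left₀ hs.ne']
    exact hx
  · obtain ⟨x, hx⟩ := nB
    refine ⟨(1 - s) * x, ?_⟩
    rw [Set.mem_preimage, inv_mul_cancel_left₀ hs'.ne']
    exact hx
  · intro x hx y hy
    have := h _ hx _ hy
    rwa [mul_inv_cancel_left₀ hs.ne', mul_inv_cancel_left₀ hs'.ne'] at this


namespace PLAaux

/-- layer cake for functions bounded by one -/
theorem cake (f : ℝ → ℝ≥0∞) (hf : Measurable f) (h1 : ∀ x, f x ≤ 1) :
    ∫⁻ x, f x = ∫⁻ t in Set.Ioi (0 : ℝ), volume {x | t < (f x).toReal} := by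
  rw [← lintegral_eq_lintegral_meas_lt volume
    (Filter.Eventually.of_forall fun x => ENNReal.toReal_nonneg) hf.ennreal_toReal.aemeasurable]
  refine lintegral_congr fun x => ?_
  rw [ENNReal.ofReal_toReal]
  exact ne_top_of_le_ne_top ENNReal.one_ne_top (h1 x)

theorem meas_anti (f : ℝ → ℝ) : Measurable fun t : ℝ => volume {x | t < f x} :=
  Antitone.measurable fun _ _ hst => measure_mono fun _ hx => lt_of_le_of_lt hst hx

theorem amgm (s : ℝ) (hs : 0 < s) (hs1 : s < 1) (a b : ℝ≥0∞) :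
    a ^ s * b ^ (1 - s) ≤ ENNReal.ofReal s * a + ENNReal.ofReal (1 - s) * b := by
  have h1s : 0 < 1 - s := by linarith
  have e1 : ENNReal.ofReal s ≠ 0 := by simpa using hs
  have e2 : ENNReal.ofReal (1 - s) ≠ 0 := by simpa using hs1
  rcases eq_or_ne a ⊤ with ha | ha
  · rw [ha, ENNReal.mul_top e1]; simp
  rcases eq_or_ne b ⊤ with hb | hb
  · rw [hb, ENNReal.mul_top e2]; simp
  have key := Real.geom_mean_le_arith_mean2_weighted hs.le h1s.le
    (ENNReal.toReal_nonneg (a := a)) (ENNReal.toReal_nonneg (a := b)) (by ring)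
  have ha' : a = ENNReal.ofReal a.toReal := (ENNReal.ofReal_toReal ha).symm
  have hb' : b = ENNReal.ofReal b.toReal := (ENNReal.ofReal_toReal hb).symm
  rw [ha', hb']
  rw [ENNReal.ofReal_rpow_of_nonneg ENNReal.toReal_nonneg hs.le,
    ENNReal.ofReal_rpow_of_nonneg ENNReal.toReal_nonneg h1s.le,
    ← ENNReal.ofReal_mul (by positivity), ← ENNReal.ofReal_mul hs.le,
    ← ENNReal.ofReal_mul h1s.le, ← ENNReal.ofReal_add (by positivity) (by positivity)]
  exact ENNReal.ofReal_le_ofReal key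

/-- normalised functions -/
theorem norm1 (hL : S_LBM) (s : ℝ) (hs : 0 < s) (hs1 : s < 1) (f g h : ℝ → ℝ≥0∞)
    (hf : Measurable f) (hg : Measurable g) (hh : Measurable h)
    (hf1 : ⨆ x, f x = 1) (hg1 : ⨆ x, g x = 1)
    (hfg : ∀ x y, f x ^ s * g y ^ (1 - s) ≤ h (s * x + (1 - s) * y)) :
    (∫⁻ x, f x) ^ s * (∫⁻ x, g x) ^ (1 - s) ≤ ∫⁻ x, h x := by
  have h1s : 0 < 1 - s := by linarith
  have hfle : ∀ x, f x ≤ 1 := fun x => hf1 ▸ le_iSup f x
  have hgle : ∀ x, g x ≤ 1 := fun x => hg1 ▸ le_iSup g x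
  refine (amgm s hs hs1 _ _).trans ?_
  have hm : ∫⁻ x, min (h x) 1 ≤ ∫⁻ x, h x := lintegral_mono fun x => min_le_left _ _
  refine le_trans ?_ hm
  rw [cake f hf hfle, cake g hg hgle, cake (fun x => min (h x) 1) (hh.min measurable_const)
    (fun x => min_le_right _ _), ← lintegral_const_mul _ (meas_anti _),
    ← lintegral_const_mul _ (meas_anti _),
    ← lintegral_add_left ((meas_anti _).const_mul _)]
  refine setLIntegral_mono' measurableSet_Ioi fun t ht => ?_
  rw [Set.mem_Ioi] at ht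
  rcases lt_or_ge t 1 with ht1 | ht1
  · -- the main case
    have htE : ENNReal.ofReal t < 1 := by
      rw [← ENNReal.ofReal_one]
      exact (ENNReal.ofReal_lt_ofReal_iff one_pos).2 ht1
    have htE0 : ENNReal.ofReal t ≠ 0 := by simpa using ht
    have conv : ∀ (u : ℝ → ℝ≥0∞), (∀ x, u x ≤ 1) → ∀ x,
        (t < (u x).toReal ↔ ENNReal.ofReal t < u x) := by
      intro u hu x
      exact (ENNReal.ofReal_lt_iff_lt_toReal ht.le
        (ne_top_of_le_ne_top ENNReal.one_ne_top (hu x))).symm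
    refine hL s hs hs1 _ _ _ ?_ ?_ ?_ ?_ ?_ ?_
    · exact measurableSet_lt measurable_const hf.ennreal_toReal
    · exact measurableSet_lt measurable_const hg.ennreal_toReal
    · exact measurableSet_lt measurable_const (hh.min measurable_const).ennreal_toReal
    · rw [← hf1] at htE
      obtain ⟨x, hx⟩ := lt_iSup_iff.1 htE
      exact ⟨x, (conv f hfle x).2 hx⟩
    · rw [← hg1] at htE
      obtain ⟨x, hx⟩ := lt_iSup_iff.1 htE
      exact ⟨x, (conv g hgle x).2 hx⟩
    · intro x hx y hy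
      have hx' := (conv f hfle x).1 hx
      have hy' := (conv g hgle y).1 hy
      refine (conv (fun x => min (h x) 1) (fun x => min_le_right _ _) _).2 ?_
      refine lt_min (lt_of_lt_of_le ?_ (hfg x y)) htE
      have e : ENNReal.ofReal t = ENNReal.ofReal t ^ s * ENNReal.ofReal t ^ (1 - s) := by
        rw [← ENNReal.rpow_add _ _ htE0 ENNReal.ofReal_ne_top]
        simp
      rw [e]
      exact ENNReal.mul_lt_mul (ENNReal.rpow_lt_rpow hx' hs) (ENNReal.rpow_lt_rpow hy' h1s)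
  · have e0 : ∀ (u : ℝ → ℝ≥0∞), (∀ x, u x ≤ 1) → volume {x | t < (u x).toReal} = 0 := by
      intro u hu
      have : {x | t < (u x).toReal} = ∅ := by
        ext x
        simp only [Set.mem_ofPred_eq, Set.mem_empty_iff_false, iff_false, not_lt]
        refine le_trans ?_ ht1
        have := ENNReal.toReal_mono ENNReal.one_ne_top (hu x)
        simpa using this
      rw [this, measure_empty]
    rw [e0 f hfle, e0 g hgle]
    simp

/-- the general inequality for bounded functions -/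
theorem main (hL : S_LBM) (s : ℝ) (hs : 0 < s) (hs1 : s < 1) (f g h : ℝ → ℝ≥0∞)
    (hf : Measurable f) (hg : Measurable g) (hh : Measurable h)
    (hf1 : ∀ x, f x ≤ 1) (hg1 : ∀ x, g x ≤ 1)
    (hfg : ∀ x y, f x ^ s * g y ^ (1 - s) ≤ h (s * x + (1 - s) * y)) :
    (∫⁻ x, f x) ^ s * (∫⁻ x, g x) ^ (1 - s) ≤ ∫⁻ x, h x := by
  have h1s : 0 < 1 - s := by linarith
  set A : ℝ≥0∞ := ⨆ x, f x with hA
  set B : ℝ≥0∞ := ⨆ x, g x with hB
  have hAt : A ≠ ⊤ := ne_top_of_le_ne_top ENNReal.one_ne_top (iSup_le hf1)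
  have hBt : B ≠ ⊤ := ne_top_of_le_ne_top ENNReal.one_ne_top (iSup_le hg1)
  rcases eq_or_ne A 0 with hA0 | hA0
  · have : ∀ x, f x = 0 := fun x => le_antisymm (hA0 ▸ le_iSup f x) zero_le
    simp [this, hs]
  rcases eq_or_ne B 0 with hB0 | hB0
  · have : ∀ x, g x = 0 := fun x => le_antisymm (hB0 ▸ le_iSup g x) zero_le
    simp [this, h1s]
  have hAi : A⁻¹ ≠ ⊤ := ENNReal.inv_ne_top.2 hA0
  have hBi : B⁻¹ ≠ ⊤ := ENNReal.inv_ne_top.2 hB0
  have key := norm1 hL s hs hs1 (fun x => A⁻¹ * f x) (fun x => B⁻¹ * g x)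
    (fun x => (A⁻¹ ^ s * B⁻¹ ^ (1 - s)) * h x) (hf.const_mul _) (hg.const_mul _)
    (hh.const_mul _) (by rw [← ENNReal.mul_iSup, ← hA, ENNReal.inv_mul_cancel hA0 hAt])
    (by rw [← ENNReal.mul_iSup, ← hB, ENNReal.inv_mul_cancel hB0 hBt]) (by
      intro x y
      rw [ENNReal.mul_rpow_of_nonneg _ _ hs.le, ENNReal.mul_rpow_of_nonneg _ _ h1s.le]
      calc A⁻¹ ^ s * f x ^ s * (B⁻¹ ^ (1 - s) * g y ^ (1 - s))
          = (A⁻¹ ^ s * B⁻¹ ^ (1 - s)) * (f x ^ s * g y ^ (1 - s)) := by ring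
        _ ≤ _ := by gcongr; exact hfg x y)
  rw [lintegral_const_mul _ hf, lintegral_const_mul _ hg, lintegral_const_mul _ hh,
    ENNReal.mul_rpow_of_nonneg _ _ hs.le, ENNReal.mul_rpow_of_nonneg _ _ h1s.le] at key
  have hc0 : A⁻¹ ^ s * B⁻¹ ^ (1 - s) ≠ 0 := by
    refine mul_ne_zero ?_ ?_
    · exact (ENNReal.rpow_pos (ENNReal.inv_pos.2 hAt) hAi).ne'
    · exact (ENNReal.rpow_pos (ENNReal.inv_pos.2 hBt) hBi).ne'
  have hct : A⁻¹ ^ s * B⁻¹ ^ (1 - s) ≠ ⊤ :=
    ENNReal.mul_ne_top (ENNReal.rpow_ne_top_of_nonneg hs.le hAi)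
      (ENNReal.rpow_ne_top_of_nonneg h1s.le hBi)
  have e : A⁻¹ ^ s * (∫⁻ x, f x) ^ s * (B⁻¹ ^ (1 - s) * (∫⁻ x, g x) ^ (1 - s)) =
      (A⁻¹ ^ s * B⁻¹ ^ (1 - s)) * ((∫⁻ x, f x) ^ s * (∫⁻ x, g x) ^ (1 - s)) := by ring
  rw [e] at key
  exact (ENNReal.mul_le_mul_iff_right hc0 hct).1 key


end PLAaux

end Pool.Agent.TH264.MP.Base
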